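import Pool.Agent.Lib.helper21.Morera3

set_option autoImplicit false

namespace Pool.Agent.Results.MP_be4214_an.Analytic

open Set Metric Filter Topology

/-- A continuous function on an open set satisfying (i), or only (ii), is holomorphic. -/
theorem result (D : Set ℂ) (hD : IsOpen D) (f : ℂ → ℂ) (hf : ContinuousOn f D) :
    ((∀ z ∈ D, ∃ ρ > 0, closedBall z ρ ⊆ D ∧ ∀ r, 0 < r → r ≤ ρ → (∮ ζ in C(z, r), f ζ) = 0) → DifferentiableOn ℂ f D) ∧
    ((∀ z ∈ D, Tendsto (fun r : ℝ => (∮ ζ in C(z, r), f ζ) / (r : ℂ) ^ 2) (𝓝[>] 0) (𝓝 0)) → DifferentiableOn ℂ f D) := by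
  refine ⟨fun h => Pool.Agent.Lib.Helper21.Morera.main hD hf fun z hz => ?_, Pool.Agent.Lib.Helper21.Morera.main hD hf⟩
  obtain ⟨ρ, ρ0, -, k⟩ := h z hz
  refine tendsto_const_nhds.congr' ?_
  filter_upwards [Ioc_mem_nhdsGT ρ0] with r hr
  rw [k r hr.1 hr.2, zero_div]

end Pool.Agent.Results.MP_be4214_an.Analytic
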